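import Pool.Agent.Helper95.DG.Main

set_option autoImplicit false

/-!
# MP_27014f_pr: finite size criterion against the drift

If there is almost surely no infinite self-avoiding oriented path from the origin, then for every
`n ≥ 1` the origin is joined to the half plane `x + y ≤ -n` with probability at least `1/(240 √n)`, and
to the half plane `x + y ≥ n` with probability at least `1/(240 √n)`. So `θ(p) > 0` as soon as, for one
single `n`, the probability of an oriented path to one of these two half planes is smaller.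

Proved in `Pool.Agent.Helper95.DG` by helpers 21, 30, 31, 37, 39, 62, 64, 67, 95.
-/

open MeasureTheory
open scoped ENNReal NNReal

namespace Pool.Agent.Results.MP_27014f_pr.AgainstDrift

/-- Each edge of the square lattice points right/up with probability `p` independently. If almost
surely there is no infinite self-avoiding path from the origin that follows the orientations, then
for every `n ≥ 1` each of the two half planes `x + y ≤ -n` and `x + y ≥ n` is reached from the origin by
an oriented path with probability at least `1 / (240 √n)`. -/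
theorem result (p : ℝ≥0) (hp : p ≤ 1)
    (h : (Measure.infinitePi (fun _ : ℤ × ℤ × Bool => (PMF.bernoulli p hp).toMeasure))
        {ω : ℤ × ℤ × Bool → Bool |
          ∃ f : ℕ → ℤ × ℤ, f 0 = (0, 0) ∧ Function.Injective f ∧
            ∀ n : ℕ,
              (f (n + 1) = ((f n).1 + 1, (f n).2) ∧ ω ((f n).1, (f n).2, false) = true) ∨
              (f (n + 1) = ((f n).1 - 1, (f n).2) ∧ ω ((f n).1 - 1, (f n).2, false) = false) ∨
              (f (n + 1) = ((f n).1, (f n).2 + 1) ∧ ω ((f n).1, (f n).2, true) = true) ∨
              (f (n + 1) = ((f n).1, (f n).2 - 1) ∧ ω ((f n).1, (f n).2 - 1, true) = false)} = 0)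
    (n : ℕ) (hn : 1 ≤ n) :
    1 / (240 * Real.sqrt n) ≤
      (Measure.infinitePi (fun _ : ℤ × ℤ × Bool => (PMF.bernoulli p hp).toMeasure)).real
        {ω : ℤ × ℤ × Bool → Bool |
          ∃ (m : ℕ) (f : ℕ → ℤ × ℤ), f 0 = (0, 0) ∧ (f m).1 + (f m).2 ≤ -(n : ℤ) ∧
            ∀ k < m,
              (f (k + 1) = ((f k).1 + 1, (f k).2) ∧ ω ((f k).1, (f k).2, false) = true) ∨
              (f (k + 1) = ((f k).1 - 1, (f k).2) ∧ ω ((f k).1 - 1, (f k).2, false) = false) ∨
              (f (k + 1) = ((f k).1, (f k).2 + 1) ∧ ω ((f k).1, (f k).2, true) = true) ∨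
              (f (k + 1) = ((f k).1, (f k).2 - 1) ∧ ω ((f k).1, (f k).2 - 1, true) = false)} ∧
    1 / (240 * Real.sqrt n) ≤
      (Measure.infinitePi (fun _ : ℤ × ℤ × Bool => (PMF.bernoulli p hp).toMeasure)).real
        {ω : ℤ × ℤ × Bool → Bool |
          ∃ (m : ℕ) (f : ℕ → ℤ × ℤ), f 0 = (0, 0) ∧ (n : ℤ) ≤ (f m).1 + (f m).2 ∧
            ∀ k < m,
              (f (k + 1) = ((f k).1 + 1, (f k).2) ∧ ω ((f k).1, (f k).2, false) = true) ∨
              (f (k + 1) = ((f k).1 - 1, (f k).2) ∧ ω ((f k).1 - 1, (f k).2, false) = false) ∨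
              (f (k + 1) = ((f k).1, (f k).2 + 1) ∧ ω ((f k).1, (f k).2, true) = true) ∨
              (f (k + 1) = ((f k).1, (f k).2 - 1) ∧ ω ((f k).1, (f k).2 - 1, true) = false)} :=
  Pool.Agent.Helper95.DG.main p hp h n hn

end Pool.Agent.Results.MP_27014f_pr.AgainstDrift
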