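import Pool.Agent.Helper96.PK.Final

set_option autoImplicit false

/-!
# MP_27014f_pr: percolation of the randomly oriented square lattice for `p ≥ 0.635`

For all `p ≤ 0.365` and all `p ≥ 0.635` the probability of an infinite self-avoiding oriented path
from the origin is at least `0.63`.
-/

open MeasureTheory
open scoped ENNReal NNReal

namespace Pool.Agent.Results.MP_27014f_pr.BelowOriented

/-- If each edge of the square lattice points right/up with probability `p` independently, and
`p ≤ 73/200` or `p ≥ 127/200`, then with probability at least `63/100` there is an infinite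
self-avoiding path from the origin that follows the orientations. -/
theorem result (p : ℝ≥0) (hp : p ≤ 1) (h : p ≤ 73 / 200 ∨ 127 / 200 ≤ p) :
    ENNReal.ofReal (63 / 100) ≤
      (Measure.infinitePi (fun _ : ℤ × ℤ × Bool => (PMF.bernoulli p hp).toMeasure))
        {ω : ℤ × ℤ × Bool → Bool |
          ∃ f : ℕ → ℤ × ℤ, f 0 = (0, 0) ∧ Function.Injective f ∧
            ∀ n : ℕ,
              (f (n + 1) = ((f n).1 + 1, (f n).2) ∧ ω ((f n).1, (f n).2, false) = true) ∨
              (f (n + 1) = ((f n).1 - 1, (f n).2) ∧ ω ((f n).1 - 1, (f n).2, false) = false) ∨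
              (f (n + 1) = ((f n).1, (f n).2 + 1) ∧ ω ((f n).1, (f n).2, true) = true) ∨
              (f (n + 1) = ((f n).1, (f n).2 - 1) ∧ ω ((f n).1, (f n).2 - 1, true) = false)} :=
  Pool.Agent.Helper96.PK.main_percolation p hp h

end Pool.Agent.Results.MP_27014f_pr.BelowOriented
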