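import Pool.Agent.Helper50.CD.Main2
import Pool.Agent.Helper50.CD.Transfer

set_option autoImplicit false

/-!
# MP_27014f_pr: percolation and the density of the edges on oriented circuits

Each edge of the square lattice points right/up with probability `p` independently. Three facts, for every
`p` in `[0, 1]`, with `θ(p)` = probability of an infinite self-avoiding oriented path from the origin:

* crossings outside of the diamond `-m ≤ x + y ≤ m + 1`, `-m ≤ x - y ≤ m + 1`, with and against the drift, have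
  probability between `1/2 - (m+1) θ(p) / 2` and `1/2`;
* every edge lies on an oriented circuit with probability between `(1 - θ(p)) / 2` and `1/2`;
* `θ(p) > 0` if and only if this probability is smaller than `1/2`.

Proved in `Pool.Agent.Helper50.CD` by helpers 4, 8, 14, 25, 37, 41, 50, 71, on top of the planar library
`Pool.Agent.Helper95.DG`.
-/

open MeasureTheory
open scoped ENNReal NNReal

namespace Pool.Agent.Results.MP_27014f_pr.CircuitDensity

/-- The law of the orientations: `(x, y, false)` is the edge between `(x, y)` and `(x + 1, y)`, which points right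
iff its value is `true`; `(x, y, true)` is the edge between `(x, y)` and `(x, y + 1)`, which points up iff its value
is `true`. -/
noncomputable def law (p : ℝ≥0) (hp : p ≤ 1) : Measure (ℤ × ℤ × Bool → Bool) :=
  Measure.infinitePi (fun _ : ℤ × ℤ × Bool => (PMF.bernoulli p hp).toMeasure)

/-- `u → v` is an edge with the orientation given by `ω`. -/
def Arrow (ω : ℤ × ℤ × Bool → Bool) (u v : ℤ × ℤ) : Prop :=
  (v = (u.1 + 1, u.2) ∧ ω (u.1, u.2, false) = true) ∨
  (v = (u.1 - 1, u.2) ∧ ω (u.1 - 1, u.2, false) = false) ∨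
  (v = (u.1, u.2 + 1) ∧ ω (u.1, u.2, true) = true) ∨
  (v = (u.1, u.2 - 1) ∧ ω (u.1, u.2 - 1, true) = false)

/-- The probability of an infinite self-avoiding oriented path from the origin. -/
noncomputable def theta (p : ℝ≥0) (hp : p ≤ 1) : ℝ :=
  (law p hp).real {ω | ∃ f : ℕ → ℤ × ℤ, f 0 = (0, 0) ∧ Function.Injective f ∧
    ∀ n : ℕ, Arrow ω (f n) (f (n + 1))}

/-- The diamond `-m ≤ x + y ≤ m + 1`, `-m ≤ x - y ≤ m + 1`. -/
def InDiamond (m : ℕ) (z : ℤ × ℤ) : Prop :=
  -(m : ℤ) ≤ z.1 + z.2 ∧ z.1 + z.2 ≤ m + 1 ∧ -(m : ℤ) ≤ z.1 - z.2 ∧ z.1 - z.2 ≤ m + 1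

/-- There is an oriented path from a point of the diamond with `x + y = s` to a point of the diamond with
`x + y = t` which uses no edge with both ends in the diamond. -/
def Crossed (m : ℕ) (s t : ℤ) (ω : ℤ × ℤ × Bool → Bool) : Prop :=
  ∃ (n : ℕ) (f : ℕ → ℤ × ℤ), InDiamond m (f 0) ∧ (f 0).1 + (f 0).2 = s ∧
    InDiamond m (f n) ∧ (f n).1 + (f n).2 = t ∧
    ∀ k < n, Arrow ω (f k) (f (k + 1)) ∧ ¬ (InDiamond m (f k) ∧ InDiamond m (f (k + 1)))

/-- The edge with ends `a`, `b` lies on an oriented self-avoiding circuit. -/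
def OnCircuit (ω : ℤ × ℤ × Bool → Bool) (a b : ℤ × ℤ) : Prop :=
  ∃ (n : ℕ) (f : ℕ → ℤ × ℤ), 0 < n ∧ f n = f 0 ∧ (∀ i < n, ∀ j < n, f i = f j → i = j) ∧
    (∀ k < n, Arrow ω (f k) (f (k + 1))) ∧ ((f 0 = a ∧ f 1 = b) ∨ (f 0 = b ∧ f 1 = a))

/-- Each edge of the square lattice points right/up with probability `p` independently. For every `p`:
crossings outside of the diamonds have probability in `[1/2 - (m+1) θ(p) / 2, 1/2]`, in both directions; each
edge lies on an oriented circuit with probability in `[(1 - θ(p)) / 2, 1/2]`; `θ(p) > 0` iff this probability is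
smaller than `1/2`. -/
theorem result (p : ℝ≥0) (hp : p ≤ 1) :
    (∀ m : ℕ,
      (1 / 2 - (m + 1) * theta p hp / 2 ≤ (law p hp).real {ω | Crossed m (-(m : ℤ)) (m + 1) ω} ∧
        (law p hp).real {ω | Crossed m (-(m : ℤ)) (m + 1) ω} ≤ 1 / 2) ∧
      (1 / 2 - (m + 1) * theta p hp / 2 ≤ (law p hp).real {ω | Crossed m (m + 1) (-(m : ℤ)) ω} ∧
        (law p hp).real {ω | Crossed m (m + 1) (-(m : ℤ)) ω} ≤ 1 / 2)) ∧
    (∀ a b : ℤ × ℤ, (b = (a.1 + 1, a.2) ∨ b = (a.1, a.2 + 1)) →
      (1 - theta p hp) / 2 ≤ (law p hp).real {ω | OnCircuit ω a b} ∧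
      (law p hp).real {ω | OnCircuit ω a b} ≤ 1 / 2 ∧
      (0 < theta p hp ↔ (law p hp).real {ω | OnCircuit ω a b} < 1 / 2)) := by
  have ht : theta p hp = Pool.Agent.Helper50.CD.th p hp := Pool.Agent.Helper50.CD.tr_th p hp
  rw [ht]
  refine ⟨fun m => ⟨?_, ?_⟩, ?_⟩
  · have h : (law p hp).real {ω | Crossed m (-(m : ℤ)) (m + 1) ω} =
        Pool.Agent.Helper95.DG.Pr p hp {ω | Pool.Agent.Helper50.CD.Up m ω} :=
      Pool.Agent.Helper50.CD.tr_up p hp m
    rw [h]
    exact ⟨Pool.Agent.Helper50.CD.up_ge p hp m, Pool.Agent.Helper50.CD.up_le p hp m⟩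
  · have h : (law p hp).real {ω | Crossed m (m + 1) (-(m : ℤ)) ω} =
        Pool.Agent.Helper95.DG.Pr p hp {ω | Pool.Agent.Helper50.CD.Dn m ω} :=
      Pool.Agent.Helper50.CD.tr_dn p hp m
    rw [h]
    exact ⟨Pool.Agent.Helper50.CD.dn_ge p hp m, Pool.Agent.Helper50.CD.dn_le p hp m⟩
  · intro a b hab
    have h : (law p hp).real {ω | OnCircuit ω a b} = Pool.Agent.Helper50.CD.rho p hp := by
      rcases hab with rfl | rfl
      · exact Pool.Agent.Helper50.CD.tr_rc_h p hp a.1 a.2
      · exact Pool.Agent.Helper50.CD.tr_rc_v p hp a.1 a.2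
    rw [h]
    refine ⟨Pool.Agent.Helper50.CD.rho_ge p hp, Pool.Agent.Helper50.CD.rho_le p hp,
      Pool.Agent.Helper50.CD.rho_lt_of_th p hp, fun h1 => ?_⟩
    have h2 := Pool.Agent.Helper50.CD.rho_ge p hp
    linarith

end Pool.Agent.Results.MP_27014f_pr.CircuitDensity
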